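import Pool.Agent.Helper49.QU.Defs
import Pool.Agent.Helper18.CL.Defs
import Pool.Agent.Helper65.CL.Defs

/-!
# QL: fibre products of quadric bundles and norm bundles, definitions
-/

set_option autoImplicit false

namespace Pool.Agent.Helper49.QL

open Matrix MvPolynomial Pool.Agent.Helper49.QU Pool.Agent.Helper18.CL

/-- the coordinate ring of the fibre product of the hypersurfaces `nf (a i) (x i) = b i`, any index
set (helper3's `NormRing` is the case of `Fin r`) -/
abbrev NRing {A : Type} [CommRing A] {ι : Type} (l : ι → ℕ) [∀ i, NeZero (l i)] (a b : ι → A) :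
    Type :=
  MvPolynomial (Σ i, Fin (l i)) A ⧸ Ideal.span (Set.range fun i : ι =>
    (nf (C (a i)) (fun k => X ⟨i, k⟩) - C (b i) : MvPolynomial (Σ i, Fin (l i)) A))

/-- the fibre product over `A_δ` of the affine cones of the quadrics `B i` and of the hypersurfaces
`nf (a j) (z j) = b j` -/
abbrev QLRing {A : Type} [CommRing A] {r s : ℕ} {N : Fin r → ℕ}
    (B : ∀ i : Fin r, Matrix (Fin (N i)) (Fin (N i)) A) (l : Fin s → ℕ) [∀ j, NeZero (l j)]
    (a b : Fin s → A) (δ : A) : Type :=
  MvPolynomial ((Σ i : Fin r, Fin (N i)) ⊕ (Σ j : Fin s, Fin (l j))) (Localization.Away δ) ⧸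
    Ideal.span (Set.range (Sum.elim
      (fun i : Fin r => (∑ j, ∑ k, C (algebraMap A (Localization.Away δ) (B i j k)) *
        X (Sum.inl ⟨i, j⟩) * X (Sum.inl ⟨i, k⟩) :
        MvPolynomial ((Σ i : Fin r, Fin (N i)) ⊕ (Σ j : Fin s, Fin (l j)))
          (Localization.Away δ)))
      (fun j : Fin s => (nf (C (algebraMap A (Localization.Away δ) (a j)))
        (fun k => X (Sum.inr ⟨j, k⟩)) - C (algebraMap A (Localization.Away δ) (b j)) :
        MvPolynomial ((Σ i : Fin r, Fin (N i)) ⊕ (Σ j : Fin s, Fin (l j)))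
          (Localization.Away δ)))))

/-- the degrees of the mixed family: `2` for the quadrics -/
abbrev lmix (r : ℕ) {s : ℕ} (l : Fin s → ℕ) : Fin r ⊕ Fin s → ℕ := Sum.elim (fun _ => 2) l

instance {r s : ℕ} (l : Fin s → ℕ) [h : ∀ j, NeZero (l j)] : ∀ i, NeZero (lmix r l i)
  | Sum.inl _ => ⟨two_ne_zero⟩
  | Sum.inr j => h j

/-- the symbols of the mixed family over the new ring -/
noncomputable abbrev amix {K : Type} [Field K] {n r s : ℕ} {N : Fin r → ℕ}
    (B : ∀ i : Fin r, Matrix (Fin (N i)) (Fin (N i)) (MvPolynomial (Fin n) K))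
    (a : Fin s → MvPolynomial (Fin n) K) : Fin r ⊕ Fin s → MvPolynomial (Fin (vn N + n)) K :=
  Sum.elim (aQ N B) (fun j => inc n N K (a j))

noncomputable abbrev bmix {K : Type} [Field K] {n r s : ℕ} {N : Fin r → ℕ}
    (B : ∀ i : Fin r, Matrix (Fin (N i)) (Fin (N i)) (MvPolynomial (Fin n) K))
    (b : Fin s → MvPolynomial (Fin n) K) : Fin r ⊕ Fin s → MvPolynomial (Fin (vn N + n)) K :=
  Sum.elim (bQ N B) (fun j => inc n N K (b j))

end Pool.Agent.Helper49.QL
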