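import Pool.Agent.Helper49.QL.Defs
import Pool.Agent.Helper8.QU.Class

/-!
# QL2: the norm factors in the new ring
-/

set_option autoImplicit false

namespace Pool.Agent.Helper49.QL

open MvPolynomial Pool.Agent.Helper49.QU Pool.Agent.Helper8.QU
open Pool.Agent.Helper69.CB (TriDeg)

/-- **QL2.** an irreducible factor of an old polynomial is old -/
theorem factor_norm {k : Type} [Field k] {n r : ℕ} {N : Fin r → ℕ} (dm l : ℕ) (W : Prop)
    (a b : MvPolynomial (Fin n) k) (ha : a ≠ 0) (hb : b ≠ 0)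
    (h : ∀ P : MvPolynomial (Fin n) k, Irreducible P → P ∣ a * b →
      TriDeg dm P ∨ (W ∧ Pool.Agent.Helper65.CL.LCU l P a b))
    (P : MvPolynomial (Fin (vn N + n)) k) (hP : Irreducible P)
    (hd : P ∣ inc n N k a * inc n N k b) :
    TriDeg dm P ∨ (W ∧ Pool.Agent.Helper65.CL.LCU l P (inc n N k a) (inc n N k b)) := by
  have hti : Function.Injective (tix (n := n) N) := tix_injective
  have hinj : Function.Injective (inc n N k) := rename_injective _ hti
  have hab : inc n N k (a * b) ≠ 0 := by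
    intro h0
    exact mul_ne_zero ha hb (hinj (h0.trans (map_zero _).symm))
  rw [← map_mul] at hd
  have hv : ∀ s : VI N, P.degreeOf (vix N s) = 0 := by
    intro s
    have h1 := Pool.Agent.Helper8.QU.degreeOf_le_of_dvd (vix N s) hab hd
    have h2 : (inc n N k (a * b)).degreeOf (vix N s) = 0 := by
      refine degreeOf_rename_of_notMem ?_
      rintro ⟨j, hj⟩
      exact vix_ne_tix s j hj.symm
    omega
  obtain ⟨P0, hP0, hPP, hdeg⟩ := exists_old P hP hv
  have hdvd : ∀ Q : MvPolynomial (Fin n) k, P ∣ inc n N k Q ↔ P0 ∣ Q := by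
    intro Q
    rw [hPP]
    exact rename_dvd_rename_iff hti
  rcases h P0 hP0 ((hdvd _).1 hd) with h1 | ⟨hW, e, f, a1, b1, g, c, h1, h2, h3, h4, h5, h6⟩
  · left
    intro j hj
    rcases mem_range_or j with ⟨s, rfl⟩ | ⟨j0, rfl⟩
    · rw [hv s]
      exact Nat.zero_le _
    · rw [hdeg j0]
      refine h1 j0 fun l hl => ?_
      rw [← hdeg l]
      exact hj _ (tix_lt_tix.2 hl)
  · right
    refine ⟨hW, e, f, inc n N k a1, inc n N k b1, inc n N k g, inc n N k c, ?_, ?_, ?_, ?_, ?_, ?_⟩
    · rw [h1, hPP, map_mul, map_pow]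
    · rw [h2, hPP, map_mul, map_pow]
    · rwa [hdvd]
    · rwa [hdvd]
    · rwa [hdvd]
    · have h7 := (hdvd _).2 h6
      simpa only [map_sub, map_mul, map_pow, map_neg, map_one] using h7

end Pool.Agent.Helper49.QL
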