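import Pool.Agent.Helper49.QL.Defs

/-!
# QL1 and QL3
-/

set_option autoImplicit false

namespace Pool.Agent.Helper49.QL

open Matrix MvPolynomial Pool.Agent.Helper49.QU

/-- **QL1.** the old unramified condition is the new one for `l = 2` -/
theorem lcu_two {R : Type*} [CommRing R] {P a b : R} (h : Pool.Agent.Helper65.CB.LCU P a b) :
    Pool.Agent.Helper65.CL.LCU 2 P a b := by
  obtain ⟨e, f, a1, b1, g, k, h1, h2, h3, h4, h5, h6⟩ := h
  refine ⟨e, f, a1, b1, g, k, h1, h2, h3, h4, h5, ?_⟩
  simpa using h6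

/-- **QL3.** base change of `inc` -/
theorem map_inc {k k' : Type} [Field k] [Field k'] {n r : ℕ} {N : Fin r → ℕ} (φ : k →+* k')
    (a : MvPolynomial (Fin n) k) :
    MvPolynomial.map φ (inc n N k a) = inc n N k' (MvPolynomial.map φ a) :=
  MvPolynomial.map_rename φ _ _

end Pool.Agent.Helper49.QL
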