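import Pool.Agent.Helper49.QL.Fr
import Pool.Agent.Helper49.QL.Lcu
import Pool.Agent.Helper49.QU.Final
import Pool.Agent.Helper65.CL.FinalDm
import Pool.Agent.Helper49.QL.Norm

/-!
# QL: assembly (draft, over the frames)
-/

set_option autoImplicit false

namespace Pool.Agent.Helper49.QLA

open Matrix Pool.Agent.Helper49.QU Pool.Agent.Helper49.QL Pool.Agent.Helper18.CL
open NumberField Pool.Agent.Helper4.CB
open Pool.Agent.Helper69.CB (TriDeg)
open Pool.Agent.Helper65.CB (DominatedOver)
open AlgebraicGeometry CategoryTheory Pool.Agent.Helper15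

/-- the irreducible factors of the mixed family -/
theorem mix_class {K : Type} [Field K] [CharZero K] {n r s : ℕ} {N : Fin r → ℕ} (W : ℕ → Prop)
    (hW2 : W 2) (dm : ℕ) (hdm : 2 ≤ dm)
    (B : ∀ i : Fin r, Matrix (Fin (N i)) (Fin (N i)) (MvPolynomial (Fin n) K))
    (hB : ∀ i, (B i).IsSymm)
    (hr : ∀ i, ∃ f g : Fin 3 → Fin (N i), ((B i).submatrix f g).det ≠ 0)
    (h : ∀ i, ∀ P : MvPolynomial (Fin n) (AlgebraicClosure K), Irreducible P →
      (∀ j : Fin n, (∀ l < j, P.degreeOf l = 0) → P.degreeOf j ≤ dm) ∨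
        ¬ Minors ((B i).map (MvPolynomial.map (algebraMap K (AlgebraicClosure K)))) P ∨
        SplitAt ((B i).map (MvPolynomial.map (algebraMap K (AlgebraicClosure K)))) P)
    (l : Fin s → ℕ) (a b : Fin s → MvPolynomial (Fin n) K)
    (ha : ∀ j, a j ≠ 0) (hb : ∀ j, b j ≠ 0)
    (hP : ∀ j, ∀ P : MvPolynomial (Fin n) (AlgebraicClosure K), Irreducible P →
      P ∣ MvPolynomial.map (algebraMap K (AlgebraicClosure K)) (a j * b j) → TriDeg dm P ∨
        (W (l j) ∧ Pool.Agent.Helper65.CL.LCU (l j) P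
          (MvPolynomial.map (algebraMap K (AlgebraicClosure K)) (a j))
          (MvPolynomial.map (algebraMap K (AlgebraicClosure K)) (b j))))
    (x : Fin r ⊕ Fin s) (P : MvPolynomial (Fin (vn N + n)) (AlgebraicClosure K))
    (hPi : Irreducible P)
    (hPd : P ∣ MvPolynomial.map (algebraMap K (AlgebraicClosure K)) (amix B a x * bmix B b x)) :
    TriDeg dm P ∨ (W (lmix r l x) ∧ Pool.Agent.Helper65.CL.LCU (lmix r l x) P
      (MvPolynomial.map (algebraMap K (AlgebraicClosure K)) (amix B a x))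
      (MvPolynomial.map (algebraMap K (AlgebraicClosure K)) (bmix B b x))) := by
  have hinj : Function.Injective (MvPolynomial.map (σ := Fin n)
      (algebraMap K (AlgebraicClosure K))) :=
    MvPolynomial.map_injective _ (algebraMap K (AlgebraicClosure K)).injective
  rcases x with i | j
  · change P ∣ MvPolynomial.map (algebraMap K (AlgebraicClosure K)) (aQ N B i * bQ N B i) at hPd
    change TriDeg dm P ∨ (W 2 ∧ Pool.Agent.Helper65.CL.LCU 2 P
      (MvPolynomial.map (algebraMap K (AlgebraicClosure K)) (aQ N B i))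
      (MvPolynomial.map (algebraMap K (AlgebraicClosure K)) (bQ N B i)))
    rw [map_mul, (Pool.Agent.Helper29.QU.map_aQ_bQ _ B i).1,
      (Pool.Agent.Helper29.QU.map_aQ_bQ _ B i).2] at hPd
    rw [(Pool.Agent.Helper29.QU.map_aQ_bQ _ B i).1, (Pool.Agent.Helper29.QU.map_aQ_bQ _ B i).2]
    refine (factor_class dm hdm (fun i => (B i).map
      (MvPolynomial.map (algebraMap K (AlgebraicClosure K)))) (fun i => ?_) i ?_ (h i) P hPi
      hPd).imp id fun h => ⟨hW2, lcu_two h⟩
    · exact (hB i).map _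
    · obtain ⟨f, g, hfg⟩ := hr i
      refine ⟨f, g, ?_⟩
      intro h0
      apply hfg
      have h1 := (RingHom.map_det (MvPolynomial.map (algebraMap K (AlgebraicClosure K)))
        ((B i).submatrix f g))
      have h2 : MvPolynomial.map (algebraMap K (AlgebraicClosure K))
          ((B i).submatrix f g).det = 0 := by
        rw [h1]; exact h0
      exact hinj (by rw [h2, map_zero])
  · change P ∣ MvPolynomial.map (algebraMap K (AlgebraicClosure K))
      (inc n N K (a j) * inc n N K (b j)) at hPd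
    change TriDeg dm P ∨ (W (l j) ∧ Pool.Agent.Helper65.CL.LCU (l j) P
      (MvPolynomial.map (algebraMap K (AlgebraicClosure K)) (inc n N K (a j)))
      (MvPolynomial.map (algebraMap K (AlgebraicClosure K)) (inc n N K (b j))))
    rw [map_mul, map_inc, map_inc] at hPd
    rw [map_inc, map_inc]
    refine factor_norm dm (l j) (W (l j)) _ _
      (by rw [Ne, map_eq_zero_iff _ hinj]; exact ha j)
      (by rw [Ne, map_eq_zero_iff _ hinj]; exact hb j)
      (fun P hP1 hP2 => hP j P hP1 (by rw [map_mul]; exact hP2)) P hPi hPd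

/-- **QL** from the theorem for norm hypersurfaces -/
theorem ql_of (dm : ℕ) (hdm : 2 ≤ dm) (hS : Pool.Agent.Helper65.CL.SieveAll dm)
    (W : ℕ → Prop) (hW2 : W 2)
    (hW : ∀ (M : Type) [Field M] [NumberField M] (l J : ℕ),
      l.Prime → 2 ≤ J → W l → Pool.Agent.Helper65.CL.AlgStmtU M l J)
    (K : Type) [Field K] [NumberField K] (n r s : ℕ) (N : Fin r → ℕ)
    (B : ∀ i : Fin r, Matrix (Fin (N i)) (Fin (N i)) (MvPolynomial (Fin n) K))
    (hB : ∀ i, (B i).IsSymm)
    (hr : ∀ i, ∃ f g : Fin 3 → Fin (N i), ((B i).submatrix f g).det ≠ 0)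
    (h : ∀ i, ∀ P : MvPolynomial (Fin n) (AlgebraicClosure K), Irreducible P →
      (∀ j : Fin n, (∀ l < j, P.degreeOf l = 0) → P.degreeOf j ≤ dm) ∨
        ¬ Minors ((B i).map (MvPolynomial.map (algebraMap K (AlgebraicClosure K)))) P ∨
        SplitAt ((B i).map (MvPolynomial.map (algebraMap K (AlgebraicClosure K)))) P)
    (l : Fin s → ℕ) [∀ j, NeZero (l j)] (hl : ∀ j, (l j).Prime)
    (a b : Fin s → MvPolynomial (Fin n) K) (ha : ∀ j, a j ≠ 0) (hb : ∀ j, b j ≠ 0)
    (hP : ∀ j, ∀ P : MvPolynomial (Fin n) (AlgebraicClosure K), Irreducible P →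
      P ∣ MvPolynomial.map (algebraMap K (AlgebraicClosure K)) (a j * b j) → TriDeg dm P ∨
        (W (l j) ∧ Pool.Agent.Helper65.CL.LCU (l j) P
          (MvPolynomial.map (algebraMap K (AlgebraicClosure K)) (a j))
          (MvPolynomial.map (algebraMap K (AlgebraicClosure K)) (b j)))) :
    ∃ δ : MvPolynomial (Fin n) K, δ ≠ 0 ∧ ∀ (X : Scheme.{0}) (t : X ⟶ Spec (CommRingCat.of K)),
      DominatedOver K X (Spec (CommRingCat.of (QLRing B l a b δ))) t
        (Spec.map (CommRingCat.ofHom (algebraMap K (QLRing B l a b δ)))) →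
      PotentiallyDense K X t := by
  obtain ⟨v, hv⟩ := Classical.axiom_of_choice fun i =>
    Pool.Agent.Helper28.QU.exists_const (B i) (hB i) (hr i)
  obtain ⟨δ, hδ⟩ : ∃ δ : MvPolynomial (Fin n) K, δ =
      ∏ i, D1 (B i) (fun c j => MvPolynomial.C (v i c j)) *
      D2 (B i) (fun c j => MvPolynomial.C (v i c j)) := ⟨_, rfl⟩
  have hδ0 : δ ≠ 0 := by
    rw [hδ]
    exact Finset.prod_ne_zero_iff.2 fun i _ => hv i
  refine ⟨δ, hδ0, fun X t hX => ?_⟩
  have hdom := dominated B hB v l a b δ hδ hδ0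
  -- the mixed family over `Fin (r + s)`
  let e : Fin (r + s) ≃ Fin r ⊕ Fin s := finSumFinEquiv.symm
  have hlm : ∀ x : Fin r ⊕ Fin s, (lmix r l x).Prime := by
    rintro (i | j)
    · exact Nat.prime_two
    · exact hl j
  have ham : ∀ x : Fin r ⊕ Fin s, amix B a x ≠ 0 := by
    rintro (i | j)
    · exact (Pool.Agent.Helper28.QU.aQ_bQ_ne_zero B hB i (hr i)).1
    · intro h0
      exact ha j (MvPolynomial.rename_injective _
        (fun x y hxy => by simpa [tix] using hxy) (h0.trans (map_zero _).symm))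
  have hbm : ∀ x : Fin r ⊕ Fin s, bmix B b x ≠ 0 := by
    rintro (i | j)
    · exact (Pool.Agent.Helper28.QU.aQ_bQ_ne_zero B hB i (hr i)).2
    · intro h0
      exact hb j (MvPolynomial.rename_injective _
        (fun x y hxy => by simpa [tix] using hxy) (h0.trans (map_zero _).symm))
  have hY : PotentiallyDense K (Spec (CommRingCat.of (NRing (lmix r l) (amix B a) (bmix B b))))
      (Spec.map (CommRingCat.ofHom (algebraMap K (NRing (lmix r l) (amix B a) (bmix B b))))) := by
    refine nring_reindex e (lmix r l) (amix B a) (bmix B b) ?_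
    exact Pool.Agent.Helper65.CL.final_spec dm hS W hW K (fun i => lmix r l (e i))
      (fun i => hlm (e i)) (fun i => amix B a (e i)) (fun i => bmix B b (e i)) (fun i => ham (e i))
      (fun i => hbm (e i))
      (fun i P hP1 hP2 => mix_class W hW2 dm hdm B hB hr h l a b ha hb hP (e i) P hP1 hP2)
  exact Pool.Agent.Helper65.CB.PotentiallyDense.of_dominated hX
    (Pool.Agent.Helper65.CB.PotentiallyDense.of_dominated hdom hY)

end Pool.Agent.Helper49.QLA
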