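import Pool.Agent.Helper49.QL.Defs
import Pool.Agent.Helper3.CL.EndL

/-!
# QL: frames (do not import)
-/

set_option autoImplicit false

namespace Pool.Agent.Helper49.QL

open Matrix MvPolynomial Pool.Agent.Helper49.QU Pool.Agent.Helper18.CL
open Pool.Agent.Helper69.CB (TriDeg)
open Pool.Agent.Helper65.CB (DominatedOver)
open AlgebraicGeometry CategoryTheory Pool.Agent.Helper15

/-- **QL1.** the old unramified condition is the new one for `l = 2` -/
theorem lcu_two {R : Type*} [CommRing R] {P a b : R} (h : Pool.Agent.Helper65.CB.LCU P a b) :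
    Pool.Agent.Helper65.CL.LCU 2 P a b := by
  sorry

/-- **QL2.** the norm factors in the new ring: an irreducible factor of an old polynomial is old -/
theorem factor_norm {k : Type} [Field k] {n r : ℕ} {N : Fin r → ℕ} (dm l : ℕ) (W : Prop)
    (a b : MvPolynomial (Fin n) k) (ha : a ≠ 0) (hb : b ≠ 0)
    (h : ∀ P : MvPolynomial (Fin n) k, Irreducible P → P ∣ a * b →
      TriDeg dm P ∨ (W ∧ Pool.Agent.Helper65.CL.LCU l P a b))
    (P : MvPolynomial (Fin (vn N + n)) k) (hP : Irreducible P)
    (hd : P ∣ inc n N k a * inc n N k b) :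
    TriDeg dm P ∨ (W ∧ Pool.Agent.Helper65.CL.LCU l P (inc n N k a) (inc n N k b)) := by
  sorry

/-- **QL3.** base change of `inc` -/
theorem map_inc {k k' : Type} [Field k] [Field k'] {n r : ℕ} {N : Fin r → ℕ} (φ : k →+* k')
    (a : MvPolynomial (Fin n) k) :
    MvPolynomial.map φ (inc n N k a) = inc n N k' (MvPolynomial.map φ a) := by
  sorry

/-- **QL4.** the norm ring is not trivial (a point over the algebraic closure of the fraction field:
`z = (b ^ (1 / l), 0, ..)`) -/
theorem nring_nontrivial {A : Type} [CommRing A] [IsDomain A] {ι : Type} (l : ι → ℕ)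
    [∀ i, NeZero (l i)] (a b : ι → A) : Nontrivial (NRing l a b) := by
  sorry

/-- **QL5.** another index set -/
theorem nring_reindex {K : Type} [Field K] {A : Type} [CommRing A] [IsDomain A] [Algebra K A]
    {m : ℕ} {ι : Type} (e : Fin m ≃ ι) (l : ι → ℕ) [∀ i, NeZero (l i)] (a b : ι → A)
    (h : PotentiallyDense K (Spec (CommRingCat.of (Pool.Agent.Helper3.CL.NormRing
        (fun i => l (e i)) (fun i => a (e i)) (fun i => b (e i)))))
      (Spec.map (CommRingCat.ofHom (algebraMap K (Pool.Agent.Helper3.CL.NormRing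
        (fun i => l (e i)) (fun i => a (e i)) (fun i => b (e i))))))) :
    PotentiallyDense K (Spec (CommRingCat.of (NRing l a b)))
      (Spec.map (CommRingCat.ofHom (algebraMap K (NRing l a b)))) := by
  sorry

/-- **QL6.** dominance: helper33's `dominated_core` with `A := ` the norm ring over `K[t]`,
`E := ` the norm ring over `K[v, t]`; the norm factors are unchanged -/
theorem dominated {K : Type} [Field K] [CharZero K] {n r s : ℕ} {N : Fin r → ℕ}
    (B : ∀ i : Fin r, Matrix (Fin (N i)) (Fin (N i)) (MvPolynomial (Fin n) K))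
    (hB : ∀ i, (B i).IsSymm) (v : ∀ i : Fin r, Fin 3 → Fin (N i) → K)
    (l : Fin s → ℕ) [∀ j, NeZero (l j)] (a b : Fin s → MvPolynomial (Fin n) K)
    (δ : MvPolynomial (Fin n) K)
    (hδ : δ = ∏ i, D1 (B i) (fun c j => C (v i c j)) * D2 (B i) (fun c j => C (v i c j)))
    (hδ0 : δ ≠ 0) :
    DominatedOver K (Spec (CommRingCat.of (QLRing B l a b δ)))
      (Spec (CommRingCat.of (NRing (lmix r l) (amix B a) (bmix B b))))
      (Spec.map (CommRingCat.ofHom (algebraMap K (QLRing B l a b δ))))
      (Spec.map (CommRingCat.ofHom (algebraMap K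
        (NRing (lmix r l) (amix B a) (bmix B b))))) := by
  sorry

end Pool.Agent.Helper49.QL
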